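import Pool.Agent.H77.EA.Targets3

/-!
# EA, wave 3, XN: the block of the Brauer correspondent is invariant
-/

open scoped Classical ComplexConjugate

namespace Pool.Agent.H21.EA

open AMc AMe Pool.Agent.H77.EA

theorem isConj_equiv {G G' : Type} [Group G] [Group G'] (f : G ≃* G') (x y : G) :
    IsConj x y ↔ IsConj (f x) (f y) := by
  constructor
  · intro h
    obtain ⟨c, hc⟩ := isConj_iff.1 h
    exact isConj_iff.2 ⟨f c, by rw [← hc]; simp⟩
  · intro h
    obtain ⟨c, hc⟩ := isConj_iff.1 h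
    refine isConj_iff.2 ⟨f.symm c, ?_⟩
    have h2 := congrArg f.symm hc
    simpa using h2

theorem cen_gen {N N' G G' : Type} [Group N] [Fintype N] [Group N'] [Fintype N'] [Group G]
    [Fintype G] [Group G'] [Fintype G'] (e : N ≃* N') (f : G ≃* G') (j : N →* G) (j' : N' →* G')
    (h : ∀ n, f (j n) = j' (e n)) (ψ : N' → ℂ) (x : G) :
    cen j (fun n => ψ (e n)) x = cen j' ψ (f x) := by
  unfold cen
  have h0 : (fun n => ψ (e n)) 1 = ψ 1 := by
    show ψ (e 1) = ψ 1
    rw [map_one]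
  rw [h0]
  congr 1
  refine Fintype.sum_equiv e.toEquiv _ _ fun y => ?_
  have h1 : IsConj x (j y) ↔ IsConj (f x) (j' (e.toEquiv y)) := by
    rw [isConj_equiv f, h]
    rfl
  by_cases hc : IsConj x (j y)
  · rw [if_pos hc, if_pos (h1.1 hc)]
    rfl
  · rw [if_neg hc, if_neg (fun h2 => hc (h1.2 h2))]

theorem isDefect_equiv {N M : Type} [Group N] [Fintype N] [Group M] [Fintype M] (e : N ≃* M)
    {ℓ : ℕ} {𝔪 : Ideal (integralClosure ℤ ℂ)} {ψ : N → ℂ} {E : Subgroup N}
    (hE : IsDefect ℓ 𝔪 ψ E) :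
    IsDefect ℓ 𝔪 (fun y => ψ (e.symm y)) (E.map e.toMonoidHom) := by
  obtain ⟨h1, ⟨x, hx1, hx2, hx3⟩, h3⟩ := hE
  have hcen : ∀ y : M, cen (MonoidHom.id M) (fun y => ψ (e.symm y)) y =
      cen (MonoidHom.id N) ψ (e.symm y) := fun y =>
    cen_gen e.symm e.symm (MonoidHom.id M) (MonoidHom.id N) (fun n => rfl) ψ y
  have hcz : ∀ x : N, (Subgroup.centralizer {x}).map e.toMonoidHom =
      Subgroup.centralizer {e x} := by
    intro x
    ext y
    rw [Subgroup.mem_map, Subgroup.mem_centralizer_singleton_iff]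
    constructor
    · rintro ⟨z, hz, rfl⟩
      rw [Subgroup.mem_centralizer_singleton_iff] at hz
      show e z * e x = e x * e z
      rw [← map_mul, ← map_mul, hz]
    · intro hy
      refine ⟨e.symm y, ?_, ?_⟩
      · rw [Subgroup.mem_centralizer_singleton_iff]
        apply e.injective
        rw [map_mul, map_mul]
        simpa using hy
      · show e (e.symm y) = y
        simp
  refine ⟨h1.map _, ⟨e x, ?_, ?_, ?_⟩, ?_⟩
  · rw [hcen, MulEquiv.symm_apply_apply]
    exact hx1
  · rw [← hcz]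
    exact Subgroup.map_mono hx2
  · rw [← hcz, Subgroup.relIndex_map_map_of_injective _ _ e.injective]
    exact hx3
  · intro y hy
    rw [hcen] at hy
    obtain ⟨g, hg⟩ := h3 (e.symm y) hy
    refine ⟨e g, ?_⟩
    rintro d ⟨d', hd', rfl⟩
    have h := hg d' hd'
    rw [Subgroup.mem_centralizer_singleton_iff] at h ⊢
    have h' := congrArg e h
    simp only [map_mul, map_inv, MulEquiv.apply_symm_apply] at h'
    exact h'

theorem xn (hBT : T_BT) : T_XN := by
  intro ℓ _ 𝔪 hm hl G N _ _ _ _ j D E χ ψ hBP σ σ' hσσ hF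
  have hnorm := hBP.rng
  obtain ⟨e, he⟩ : ∃ e : N ≃* Subgroup.normalizer (D : Set G), ∀ n, ((e n : _) : G) = j n := by
    refine ⟨(MonoidHom.ofInjective hBP.inj).trans (MulEquiv.subgroupCongr hnorm), ?_⟩
    intro n
    rfl
  have hes : ∀ y : Subgroup.normalizer (D : Set G), j (e.symm y) = (y : G) := by
    intro y
    rw [← he, MulEquiv.apply_symm_apply]
  -- membership in `E`
  have hEmem : ∀ n : N, n ∈ E ↔ j n ∈ D := by
    intro n
    rw [← hBP.map, Subgroup.mem_map]
    constructor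
    · intro h
      exact ⟨n, h, rfl⟩
    · rintro ⟨n', hn', h⟩
      rw [← hBP.inj h]
      exact hn'
  have hE1 : ∀ n, σ' n ∈ E ↔ n ∈ E := by
    intro n
    rw [hEmem, hEmem, hσσ]
    exact hF.1 _
  -- the transported character
  have hψ0 : (fun y => ψ (e.symm y)) ∈ Irr (Subgroup.normalizer (D : Set G)) :=
    Pool.Agent.H65.EA.irr_equiv e hBP.irr'
  have hmap : E.map e.toMonoidHom = D.subgroupOf (Subgroup.normalizer (D : Set G)) := by
    ext y
    rw [Subgroup.mem_map, Subgroup.mem_subgroupOf]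
    constructor
    · rintro ⟨n, hn, rfl⟩
      have : ((e n : Subgroup.normalizer (D : Set G)) : G) ∈ D := by
        rw [he]
        exact (hEmem n).1 hn
      exact this
    · intro hy
      refine ⟨e.symm y, ?_, ?_⟩
      · rw [hEmem, hes]
        exact hy
      · show e (e.symm y) = y
        simp
  have hdef : IsDefect ℓ 𝔪 (fun y => ψ (e.symm y))
      (D.subgroupOf (Subgroup.normalizer (D : Set G))) := by
    rw [← hmap]
    exact isDefect_equiv e hBP.dfc'
  have hcs : ∀ (φ : N → ℂ) (x : G),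
      cen (Subgroup.normalizer (D : Set G)).subtype (fun y => φ (e.symm y)) x = cen j φ x := by
    intro φ x
    exact cen_gen e.symm (MulEquiv.refl G) (Subgroup.normalizer (D : Set G)).subtype j
      (fun n => (hes n).symm) φ x
  have hcorr : Corr 𝔪 (Subgroup.normalizer (D : Set G)).subtype χ (fun y => ψ (e.symm y)) := by
    intro x
    rw [hcs]
    exact hBP.cor x
  have hB : Brauer ℓ 𝔪 D χ (fun y => ψ (e.symm y)) := ⟨hBP.irr, hψ0, hBP.dfc, hdef, hcorr⟩
  have hψ1 : (fun n => ψ (σ' n)) ∈ Irr N := irr_cmp σ' hBP.irr'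
  have hψ0' : (fun y => (fun n => ψ (σ' n)) (e.symm y)) ∈
      Irr (Subgroup.normalizer (D : Set G)) := Pool.Agent.H65.EA.irr_equiv e hψ1
  have hcorr' : Corr 𝔪 (Subgroup.normalizer (D : Set G)).subtype χ
      (fun y => (fun n => ψ (σ' n)) (e.symm y)) := by
    intro x
    have h0 := hcs (fun n => ψ (σ' n)) x
    rw [h0, cen_gen σ' σ j j (fun n => (hσσ n).symm) ψ x]
    have h1 := hF.2 x
    have h2 : cen (MonoidHom.id G) (fun g => χ (σ g)) x = cen (MonoidHom.id G) χ (σ x) :=
      cen_cmp σ χ x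
    rw [h2] at h1
    exact cong_trans h1 (hBP.cor (σ x))
  have hsame := (((hBT ℓ 𝔪 hm hl G D).2.2.1 χ _ hB _ hψ0').1).2 hcorr'
  refine ⟨hE1, ?_⟩
  intro x
  have h := hsame (e x)
  have hid : ∀ φ : N → ℂ, cen (MonoidHom.id (Subgroup.normalizer (D : Set G)))
      (fun y => φ (e.symm y)) (e x) = cen (MonoidHom.id N) φ x := by
    intro φ
    rw [cen_gen e.symm e.symm (MonoidHom.id _) (MonoidHom.id N) (fun n => rfl) φ (e x),
      MulEquiv.symm_apply_apply]
  rw [hid ψ, hid (fun n => ψ (σ' n))] at h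
  exact h

end Pool.Agent.H21.EA
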