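import Pool.Agent.H77.EA.Targets3

/-!
# EA, wave 3, XP: irreducible characters of direct products
-/

open scoped Classical ComplexConjugate

namespace Pool.Agent.H21.EA

open AMc AMe

theorem xp_isChar_inv {G : Type} [Group G] {f : G → ℂ} (h : IsChar G f) :
    IsChar G (fun g => f g⁻¹) := by
  obtain ⟨n, ρ, rfl⟩ := h
  set σ := ρ.dual with hσ
  set e : Module.Dual ℂ (Fin n → ℂ) ≃ₗ[ℂ]
      (Fin (Module.finrank ℂ (Module.Dual ℂ (Fin n → ℂ))) → ℂ) :=
    (Module.finBasis ℂ (Module.Dual ℂ (Fin n → ℂ))).equivFun with he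
  refine ⟨_, { toFun := fun g => e.conj (σ g), map_one' := ?_, map_mul' := ?_ }, ?_⟩
  · ext x
    simp [LinearEquiv.conj_apply]
  · intro a b
    rw [map_mul]
    ext x
    simp [LinearEquiv.conj_apply]
  · funext g
    refine (LinearMap.trace_conj' (σ g) e).trans ?_
    exact Representation.char_dual ρ g

theorem xp_irr_inv (hA1 : T_A1) (hA3 : T_A3) {G : Type} [Group G] [Fintype G] {b : G → ℂ}
    (hb : b ∈ Irr G) : (fun g => b g⁻¹) ∈ Irr G := by
  refine (hA3 G).2.2.2 _ (xp_isChar_inv ((hA3 G).1 b hb).1) ?_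
  have h := hA1 G b b hb hb
  rw [if_pos rfl] at h
  rw [← h]
  exact Fintype.sum_equiv (Equiv.inv G) _ _ (fun g => rfl)

theorem xp (hA1 : T_A1) (hA2 : T_A2) (hA3 : T_A3) (hA4 : T_A4) : T_XP := by
  intro G₁ G₂ _ _ _ _
  have h1 : ∀ a ∈ Irr G₁, ∀ b ∈ Irr G₂, mx a b ∈ Irr (G₁ × G₂) := by
    intro a ha b hb
    have ca : IsChar (G₁ × G₂) (fun g => a g.1) :=
      hA4.2.1 (G₁ × G₂) G₁ (MonoidHom.fst G₁ G₂) a ((hA3 G₁).1 a ha).1
    have cb : IsChar (G₁ × G₂) (fun g => b g.2⁻¹) :=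
      hA4.2.1 (G₁ × G₂) G₂ (MonoidHom.snd G₁ G₂) (fun g => b g⁻¹)
        (xp_isChar_inv ((hA3 G₂).1 b hb).1)
    refine (hA3 (G₁ × G₂)).2.2.2 _ (hA4.1 (G₁ × G₂) _ _ ca cb) ?_
    have na := hA1 G₁ a a ha ha
    have nb := hA1 G₂ _ _ (xp_irr_inv hA1 hA3 hb) (xp_irr_inv hA1 hA3 hb)
    rw [if_pos rfl] at na nb
    rw [Nat.card_prod, Nat.cast_mul, ← na, ← nb, Finset.sum_mul_sum, ← Fintype.sum_prod_type']
    refine Finset.sum_congr rfl fun g _ => ?_
    simp only [mx, map_mul]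
    ring
  refine ⟨h1, ?_, ?_⟩
  · intro c hc
    by_contra hno
    push Not at hno
    obtain ⟨cc, d, hd, hcd⟩ := (hA3 (G₁ × G₂)).1 c hc
    have ccl := ((hA3 (G₁ × G₂)).2.1 c cc).1
    have hF : ∀ a ∈ Irr G₁, (fun y : G₂ => ∑ x : G₁, c (x, y) * conj (a x)) = 0 := by
      intro a ha
      apply hA2 G₂
      · intro g y
        have hcl := ((hA3 G₁).2.1 a ((hA3 G₁).1 a ha).1).1
        refine Finset.sum_congr rfl fun x _ => ?_
        have h := ccl (1, g) (x, y)
        have h2 : ((1 : G₁), g) * (x, y) * ((1 : G₁), g)⁻¹ = (x, g * y * g⁻¹) := by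
          simp
        rw [h2] at h
        rw [h]
      · intro b hb
        have hb' := xp_irr_inv hA1 hA3 hb
        have h := hA1 (G₁ × G₂) c (mx a (fun g => b g⁻¹)) hc (h1 a ha _ hb')
        rw [if_neg (hno a ha _ hb')] at h
        rw [← h, Fintype.sum_prod_type_right]
        refine Finset.sum_congr rfl fun y _ => ?_
        rw [Finset.sum_mul]
        refine Finset.sum_congr rfl fun x _ => ?_
        simp only [mx, map_mul, inv_inv]
        ring
    have hz : ∀ y : G₂, (fun x : G₁ => c (x, y)) = 0 := by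
      intro y
      apply hA2 G₁
      · intro g x
        have h := ccl (g, 1) (x, y)
        have h2 : (g, (1 : G₂)) * (x, y) * (g, (1 : G₂))⁻¹ = (g * x * g⁻¹, y) := by
          simp
        rw [h2] at h
        exact h
      · intro a ha
        exact congrFun (hF a ha) y
    have h0 : c 1 = 0 := congrFun (hz 1) 1
    rw [hcd] at h0
    have : (d : ℂ) ≠ 0 := by exact_mod_cast hd.ne'
    exact this h0
  · intro a ha a' ha' b hb b' hb' hab
    obtain ⟨-, da, hda, hda'⟩ := (hA3 G₁).1 a ha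
    obtain ⟨-, db, hdb, hdb'⟩ := (hA3 G₂).1 b hb
    obtain ⟨-, db2, hdb2, hdb2'⟩ := (hA3 G₂).1 b' hb'
    have e1 : ∀ x : G₁, a x * (db : ℂ) = a' x * (db2 : ℂ) := by
      intro x
      have h := congrFun hab (x, 1)
      simp only [mx, inv_one] at h
      rw [hdb', hdb2'] at h
      exact h
    have haa : a = a' := by
      by_contra hne
      have h := hA1 G₁ a a' ha ha'
      rw [if_neg hne] at h
      have h' := hA1 G₁ a' a' ha' ha'
      rw [if_pos rfl] at h'
      have h3 : (∑ g, a g * conj (a' g)) * (db : ℂ) = (∑ g, a' g * conj (a' g)) * (db2 : ℂ) := by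
        rw [Finset.sum_mul, Finset.sum_mul]
        refine Finset.sum_congr rfl fun x _ => ?_
        linear_combination (conj (a' x)) * e1 x
      rw [h, h', zero_mul] at h3
      have h4 : (Nat.card G₁ : ℂ) ≠ 0 := by
        exact_mod_cast (Nat.card_pos (α := G₁)).ne'
      have h5 : (db2 : ℂ) ≠ 0 := by exact_mod_cast hdb2.ne'
      exact (mul_ne_zero h4 h5) h3.symm
    subst haa
    refine ⟨rfl, ?_⟩
    funext y
    have h := congrFun hab (1, y⁻¹)
    simp only [mx, inv_inv] at h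
    rw [hda'] at h
    have h5 : (da : ℂ) ≠ 0 := by exact_mod_cast hda.ne'
    exact mul_left_cancel₀ h5 h

end Pool.Agent.H21.EA
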